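import Pool.Agent.P.MP_bd6b97_lc.G4.Gadget

set_option autoImplicit false

namespace Pool.Agent.P.MP_bd6b97_lc.G4

open Set Function Relation MeasureTheory

variable {V : Type}

/-- the rule: a point of `E` has colour `β` exactly if no neighbour has; the other points have
two neighbours of the other colour -/
def Hap (G : SimpleGraph V) (E : Set V) (β d : V → Bool) (v : V) : Prop :=
  (v ∈ E ∧ (d v = β v ↔ ∀ w, G.Adj v w → d w ≠ β v)) ∨ (v ∉ E ∧ Happy G d v)

variable {G : SimpleGraph V} {E : Set V} {β : V → Bool}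

lemma Hap.congr {d d' : V → Bool} {v : V} (h : Hap G E β d v) (h0 : d' v = d v)
    (h1 : ∀ w, G.Adj v w → d' w = d w) : Hap G E β d' v := by
  rcases h with ⟨hv, h⟩ | ⟨hv, a, b, hab, ha, hb⟩
  · refine Or.inl ⟨hv, ?_⟩
    rw [h0, h]
    exact forall_congr' fun w => forall_congr' fun hw => by rw [h1 w hw]
  · refine Or.inr ⟨hv, a, b, hab, ⟨ha.1, ?_⟩, ⟨hb.1, ?_⟩⟩
    · rw [h0, h1 a ha.1]; exact ha.2
    · rw [h0, h1 b hb.1]; exact hb.2

open Classical in
/-- the linear part of the potential -/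
noncomputable def lin (E : Set V) (β : V → Bool) (T : Finset V) (κ : V → ℤ) (d : V → Bool) : ℤ :=
  ∑ a ∈ T, if a ∈ E ∧ d a = β a then κ a else 0

open Classical in
lemma lin_step (T : Finset V) (κ : V → ℤ) (d d' : V → Bool) (W : V → Prop)
    (hd : ∀ v, d' v = if W v then !d v else d v) :
    lin E β T κ d' = lin E β T κ d + ∑ a ∈ T, if W a then
      (if a ∈ E then (if d a = β a then -κ a else κ a) else 0) else 0 := by
  unfold lin
  rw [← Finset.sum_add_distrib]
  refine Finset.sum_congr rfl fun a _ => ?_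
  rw [hd]
  by_cases hw : W a <;> by_cases he : a ∈ E <;> cases d a <;> cases β a <;> simp [hw, he]

variable [MeasurableSpace V]

namespace Cub

variable (C : Cub G)

include C in
lemma meas_hap (hE : Measurable fun v => v ∈ E) (hβ : Measurable β) {d : V → Bool}
    (hd : Measurable d) : Measurable (Hap G E β d) := by
  refine (hE.and (Measurable.iff (Measurable.eq hd hβ) ?_)).or (hE.not.and (C.meas_happy hd))
  exact C.meas_all' (P := fun v w => G.Adj v w) (Q := fun v w => d w ≠ β v) measurable_id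
    (fun _ _ h => h.reachable) (C.meas_adj measurable_fst measurable_snd)
    (Measurable.eq (hd.comp measurable_snd) (hβ.comp measurable_fst)).not

variable (E β)

/-- vertices flipped by one step -/
def HW (n : ℕ) (d : V → Bool) (v : V) : Prop :=
  ¬ Hap G E β d v ∧ v ∈ C.U n ∧ ∀ w, G.Adj v w → w ∉ C.U n

open Classical in
/-- the dynamics -/
noncomputable def hdyn (c : V → Bool) : ℕ → V → Bool
  | 0 => c
  | n + 1 => fun v => if C.HW E β n (hdyn c n) v then !hdyn c n v else hdyn c n v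

variable {E β}

lemma meas_hdyn (hE : Measurable fun v => v ∈ E) (hβ : Measurable β) {c : V → Bool}
    (hc : Measurable c) (n : ℕ) : Measurable (C.hdyn E β c n) := by
  classical
  induction n with
  | zero => exact hc
  | succ n ih =>
    have hU : Measurable fun v => v ∈ C.U n := measurableSet_setOfPred.1 (C.meas_U n)
    have h1 : Measurable (C.HW E β n (C.hdyn E β c n)) :=
      (C.meas_hap hE hβ ih).not.and (hU.and (C.meas_all' measurable_id
        (fun _ _ h => h.reachable) (C.meas_adj measurable_fst measurable_snd)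
        (hU.comp measurable_snd).not))
    exact Measurable.ite (measurableSet_setOfPred.2 h1)
      ((measurable_of_countable fun b : Bool => !b).comp ih) ih

lemma hdyn_F {c : V → Bool} {F : Set V} (hF : Leafless G c F) (hFE : ∀ v ∈ F, v ∉ E) (n : ℕ) :
    ∀ v ∈ F, C.hdyn E β c n v = c v ∧ ¬ C.HW E β n (C.hdyn E β c n) v := by
  have key : ∀ d : V → Bool, (∀ v ∈ F, d v = c v) → ∀ v ∈ F, Hap G E β d v := by
    intro d hd v hv
    obtain ⟨a, b, hab, ha, hb, haF, hbF⟩ := hF v hv
    refine Or.inr ⟨hFE v hv, a, b, hab, ⟨ha.1, ?_⟩, ⟨hb.1, ?_⟩⟩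
    · rw [hd v hv, hd a haF]; exact ha.2
    · rw [hd v hv, hd b hbF]; exact hb.2
  induction n with
  | zero => exact fun v hv => ⟨rfl, fun h => h.1 (key c (fun _ _ => rfl) v hv)⟩
  | succ n ih =>
    have h1 : ∀ v ∈ F, C.hdyn E β c (n + 1) v = c v := by
      intro v hv
      have := ih v hv
      simp only [hdyn, this.2, if_false]
      exact this.1
    exact fun v hv => ⟨h1 v hv, fun h => h.1 (key _ h1 v hv)⟩

lemma hdyn_stable {c : V → Bool} {F : Set V} (hF : Leafless G c F) (hFE : ∀ v ∈ F, v ∉ E)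
    (hG : ∀ v w, G.Adj v w → Good G (F ∪ E) v w) (v : V) :
    ∃ N, ∀ n, N ≤ n → ¬ C.HW E β n (C.hdyn E β c n) v := by
  classical
  have : Finite {w | G.Adj v w} := (C.finite_nbr v).to_subtype
  choose X hXf hX1 hX2 hX3 hX4 using fun i : {w | G.Adj v w} => hG v i i.2
  have hfin : (⋃ i, X i).Finite := Set.finite_iUnion hXf
  set T := hfin.toFinset with hT
  have hmem : ∀ x, x ∈ T ↔ ∃ i, x ∈ X i := by
    intro x
    rw [hT, Set.Finite.mem_toFinset, mem_iUnion]
  obtain ⟨a0, b0, c0, hab0, hac0, hbc0, ha0, hb0, hc0⟩ := C.three v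
  have hin : ∀ x, G.Adj v x → x ∈ T.filter fun b => G.Adj v b := fun x hx =>
    Finset.mem_filter.2 ⟨(hmem _).2 ⟨⟨x, hx⟩, hX2 ⟨x, hx⟩⟩, hx⟩
  have h3 : 3 ≤ (T.filter fun b => G.Adj v b).card :=
    Finset.two_lt_card_iff.2 ⟨a0, b0, c0, hin _ ha0, hin _ hb0, hin _ hc0, hab0, hac0, hbc0⟩
  have h2 : ∀ x ∈ T, x ∉ F → x ∉ E → 2 ≤ (T.filter fun b => G.Adj x b).card := by
    intro x hx hxF hxE
    by_cases hxv : x = v
    · subst hxv; omega
    obtain ⟨i, hi⟩ := (hmem x).1 hx
    obtain ⟨a, b, hab, ha, hb, haX, hbX⟩ := hX4 i x hi hxv fun h => h.elim hxF hxE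
    exact Finset.one_lt_card.2 ⟨a, Finset.mem_filter.2 ⟨(hmem _).2 ⟨i, haX⟩, ha⟩, b,
      Finset.mem_filter.2 ⟨(hmem _).2 ⟨i, hbX⟩, hb⟩, hab⟩
  have hvT : v ∈ T := (hmem v).2 ⟨⟨a0, ha0⟩, hX1 _⟩
  let κ : V → ℤ := fun a => 2 * ((T.filter fun b => G.Adj a b).card : ℤ) - if a = v then 2 else 0
  have hκ : ∀ a, 0 ≤ κ a := fun a => by
    simp only [κ]
    split_ifs with e
    · subst e; omega
    · omega
  let Φ : ℕ → ℤ := fun n => pot G T (C.hdyn E β c n) + lin E β T κ (C.hdyn E β c n)
  have hΦ : ∀ n, 0 ≤ Φ n := fun n => add_nonneg (pot_nonneg _ _)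
    (Finset.sum_nonneg fun a _ => by split_ifs; exacts [hκ a, le_rfl])
  have hstep : ∀ n, Φ (n + 1) ≤ Φ n ∧ (C.HW E β n (C.hdyn E β c n) v → Φ (n + 1) < Φ n) := by
    intro n
    set d := C.hdyn E β c n with hd
    have h := pot_step (G := G) T d (C.hdyn E β c (n + 1)) (C.HW E β n d)
      (fun v => rfl) (fun a b hab ha hb => ha.2.2 b hab hb.2.1)
    have h' := lin_step (E := E) (β := β) T κ d (C.hdyn E β c (n + 1)) (C.HW E β n d) fun v => rfl
    let δ : V → ℤ := fun a => 2 * (if C.HW E β n d a then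
      (2 * ((T.filter fun b => Bi G d a b).card : ℤ) - (T.filter fun b => G.Adj a b).card)
      else 0) + if C.HW E β n d a then
        (if a ∈ E then (if d a = β a then -κ a else κ a) else 0) else 0
    have hsum : Φ (n + 1) = Φ n + ∑ a ∈ T, δ a := by
      simp only [Φ, δ, Finset.sum_add_distrib, ← Finset.mul_sum]
      rw [h, h']
      ring
    have hle : ∀ a ∈ T, δ a ≤ if a = v ∧ C.HW E β n d v then -1 else 0 := by
      intro a ha
      by_cases hw : C.HW E β n d a
      · have hsub : (T.filter fun b => Bi G d a b) ⊆ T.filter fun b => G.Adj a b :=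
          fun b hb => Finset.mem_filter.2 ⟨(Finset.mem_filter.1 hb).1, (Finset.mem_filter.1 hb).2.1⟩
        simp only [δ, κ, if_pos hw]
        by_cases he : a ∈ E
        · have hu : ¬ (d a = β a ↔ ∀ w, G.Adj a w → d w ≠ β a) := fun h => hw.1 (Or.inl ⟨he, h⟩)
          rw [if_pos he]
          by_cases hb : d a = β a
          · rw [if_pos hb]
            have h4 := Finset.card_le_card hsub
            by_cases e : a = v
            · subst e
              obtain ⟨w, hw1, hw2⟩ : ∃ w, G.Adj a w ∧ d w = β a := by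
                by_contra hcon
                exact hu ⟨fun _ w h1 h2 => hcon ⟨w, h1, h2⟩, fun _ => hb⟩
              have h5 := Finset.card_lt_card (Finset.ssubset_iff_of_subset hsub |>.2
                ⟨w, hin w hw1, fun h => (Finset.mem_filter.1 h).2.2 (hb.trans hw2.symm)⟩)
              simp only [true_and, if_pos hw, if_true]
              omega
            · simp only [e, false_and, if_false]
              omega
          · rw [if_neg hb]
            have hall : ∀ w, G.Adj a w → d w ≠ β a := by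
              by_contra hcon
              exact hu ⟨fun h => absurd h hb, fun h => absurd h hcon⟩
            have h4 : (T.filter fun b => Bi G d a b) = ∅ :=
              Finset.filter_eq_empty_iff.2 fun b _ h => h.2 (by
                have := hall b h.1
                revert this hb
                cases d a <;> cases d b <;> cases β a <;> simp)
            rw [h4, Finset.card_empty]
            split_ifs with e1 e2 e2
            · omega
            · omega
            · exact absurd e2.1 e1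
            · omega
        · have h4 := card_bi_le T fun h => hw.1 (Or.inr ⟨he, h⟩)
          have h5 := h2 a ha (fun haF => (C.hdyn_F hF hFE n a haF).2 hw) he
          rw [if_neg he]
          split_ifs with e
          · obtain ⟨rfl, -⟩ := e
            omega
          · omega
      · simp only [δ, if_neg hw]
        rw [if_neg fun e : a = v ∧ _ => hw (e.1 ▸ e.2)]
        omega
    have h6 := Finset.sum_le_sum hle
    constructor
    · have h7 : (∑ a ∈ T, if a = v ∧ C.HW E β n d v then (-1 : ℤ) else 0) ≤ 0 :=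
        Finset.sum_nonpos fun a _ => by split_ifs <;> omega
      omega
    · intro hw
      simp only [hw, and_true, Finset.sum_ite_eq', if_pos hvT] at h6
      omega
  by_contra hcon
  push Not at hcon
  have hanti : Antitone Φ := antitone_nat_of_succ_le fun n => (hstep n).1
  have key : ∀ k : ℕ, ∃ n, Φ n ≤ Φ 0 - k := by
    intro k
    induction k with
    | zero => exact ⟨0, by simp⟩
    | succ k ih =>
      obtain ⟨n, hn⟩ := ih
      obtain ⟨m, hm, hw⟩ := hcon n
      refine ⟨m + 1, ?_⟩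
      have h1 := (hstep m).2 hw
      have h2 : Φ m ≤ Φ n := hanti hm
      push_cast
      omega
  obtain ⟨n, hn⟩ := key ((Φ 0).toNat + 1)
  have := hΦ n
  push_cast at hn
  omega

include C in
theorem exists_hap_of_good (hE : Measurable fun v => v ∈ E) (hβ : Measurable β) {c : V → Bool}
    (hc : Measurable c) {F : Set V} (hF : Leafless G c F) (hFE : ∀ v ∈ F, v ∉ E)
    (hG : ∀ v w, G.Adj v w → Good G (F ∪ E) v w) :
    ∃ d : V → Bool, Measurable d ∧ (∀ v ∈ F, d v = c v) ∧ ∀ v, Hap G E β d v := by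
  have hst : ∀ x, ∃ N, ∀ n, N ≤ n → C.hdyn E β c (n + 1) x = C.hdyn E β c n x := by
    intro x
    obtain ⟨N, hN⟩ := C.hdyn_stable (β := β) hF hFE hG x
    exact ⟨N, fun n hn => by simp only [hdyn, hN n hn, if_false]⟩
  refine ⟨lim (C.hdyn E β c), meas_lim (C.meas_hdyn hE hβ hc), fun v hv => ?_, fun v => ?_⟩
  · obtain ⟨N, hN⟩ := hst v
    rw [← lim_eq hN N le_rfl]
    exact (C.hdyn_F hF hFE N v hv).1
  obtain ⟨N, hN⟩ := lim_eq_finite (d := C.hdyn E β c) ((C.finite_nbr v).insert v)
    fun x _ => hst x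
  obtain ⟨M, hM⟩ := C.hdyn_stable (β := β) hF hFE hG v
  obtain ⟨n, hn, h1, h2⟩ := C.sep {v} {w | G.Adj v w} (finite_singleton v) (C.finite_nbr v)
    (by simp) (max N M)
  by_contra hcon
  have hn' := (le_max_left _ _).trans hn
  exact hM n ((le_max_right _ _).trans hn) ⟨fun h => hcon (h.congr
    (hN n hn' v (mem_insert _ _)).symm fun w hw => (hN n hn' w (mem_insert_of_mem _ hw)).symm),
    h1 rfl, h2⟩

include C in
theorem exists_hap_of_tgt (hE : Measurable fun v => v ∈ E) (hβ : Measurable β) {c : V → Bool}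
    (hc : Measurable c) {F : Set V} (hFm : Measurable fun v => v ∈ F) (hF : Leafless G c F)
    (hFE : ∀ v ∈ F, v ∉ E) (h : ∀ v, ∃ t, G.Reachable v t ∧ Tgt G (F ∪ E) t) :
    ∃ d : V → Bool, Measurable d ∧ (∀ v ∈ F, d v = c v) ∧ ∀ v, Hap G E β d v := by
  classical
  have hm : Measurable fun v => v ∈ F ∪ E := hFm.or hE
  let Z : Set V := {v | ∃ u, Bad G (F ∪ E) u v}
  have hZ : Measurable fun v => v ∈ Z :=
    C.meas_exadj (Q := fun v u => Bad G (F ∪ E) u v) measurable_id (fun _ _ h => h.1.symm)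
      (C.meas_bad hm)
  let c' : V → Bool := fun v => if v ∈ Z then decide (∃ j, Ch G (F ∪ E) j v ∧ Even j) else c v
  have hc' : Measurable c' := by
    refine Measurable.ite (measurableSet_setOfPred.2 hZ) (meas_decide ?_) hc
    exact Measurable.exists fun j => (C.meas_ch hm j).and measurable_const
  have hcol : ∀ v j, v ∈ Z → Ch G (F ∪ E) j v → c' v = decide (Even j) := by
    intro v j hv hj
    simp only [c', hv, if_true, decide_eq_decide]
    constructor
    · rintro ⟨j', h1, h2⟩
      rwa [ch_unique h hj h1]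
    · exact fun h2 => ⟨j, hj, h2⟩
  have hFZ : ∀ v ∈ F, c' v = c v := by
    intro v hv
    have : v ∉ Z := fun ⟨u, hu⟩ => hu.2 (good_of_mem hu.1 (Or.inl hv))
    simp only [c', this, if_false]
  refine (C.exists_hap_of_good hE hβ hc' (F := F ∪ Z) ?_ ?_ ?_).imp fun d ⟨hd, h1, h2⟩ =>
    ⟨hd, fun v hv => (h1 v (Or.inl hv)).trans (hFZ v hv), h2⟩
  · rintro v (hv | hv)
    · obtain ⟨a, b, hab, ha, hb, haF, hbF⟩ := hF v hv
      refine ⟨a, b, hab, ⟨ha.1, ?_⟩, ⟨hb.1, ?_⟩, Or.inl haF, Or.inl hbF⟩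
      · rw [hFZ v hv, hFZ a haF]; exact ha.2
      · rw [hFZ v hv, hFZ b hbF]; exact hb.2
    · obtain ⟨u, hu⟩ := hv
      obtain ⟨j, hj⟩ := ch_exists h v
      have key : ∀ a, G.Adj v a → a ≠ u → Bi G c' v a ∧ a ∈ Z := by
        intro a ha hau
        have hb := hu.fwd ha hau
        refine ⟨⟨ha, ?_⟩, v, hb⟩
        rw [hcol v j ⟨u, hu⟩ hj, hcol a (j + 1) ⟨v, hb⟩ ⟨v, hb, hj⟩]
        rw [Ne, decide_eq_decide, Nat.even_add_one]
        exact iff_not_self
      obtain ⟨a, b, hab, ha, hb, hau, hbu⟩ := C.exists_two v u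
      exact ⟨a, b, hab, (key a ha hau).1, (key b hb hbu).1, Or.inr (key a ha hau).2,
        Or.inr (key b hb hbu).2⟩
  · rintro v (hv | ⟨u, hu⟩)
    · exact hFE v hv
    · exact fun hv => hu.2 (good_of_mem hu.1 (Or.inr hv))
  · intro v w hvw
    by_cases hg : Good G (F ∪ E) v w
    · exact hg.mono (union_subset_union_left _ subset_union_left)
    · exact good_of_mem hvw (Or.inl (Or.inr ⟨v, hvw, hg⟩))

end Cub

/-- the rule can be met by a measurable colouring that extends a leafless partial colouring -/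
theorem exists_hap [StandardBorelSpace V] (hG : MeasurableSet {p : V × V | G.Adj p.1 p.2})
    (hcv : Cov G) (hf : ∀ v, {w | G.Adj v w}.Finite) (h3 : Three G)
    (hE : Measurable fun v => v ∈ E) (hβ : Measurable β) {c : V → Bool}
    (hc : Measurable c) {F : Set V} (hFm : Measurable fun v => v ∈ F) (hF : Leafless G c F)
    (hFE : ∀ v ∈ F, v ∉ E) :
    ∃ d : V → Bool, Measurable d ∧ (∀ v ∈ F, d v = c v) ∧ ∀ v, Hap G E β d v := by
  classical
  obtain ⟨C⟩ := nonempty_cub G hG hcv hf h3
  let A : Set V := {v | ¬ ∃ t, G.Reachable v t ∧ Tgt G (F ∪ E) t}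
  have hA : MeasurableSet A := measurableSet_setOfPred.2
    (C.meas_ex measurable_id ((C.meas_tgt (hFm.or hE)).comp measurable_snd)).not
  have hcl : ∀ v w, v ∈ A → G.Adj v w → w ∈ A := fun v w hv hw ⟨t, ht, ht'⟩ =>
    hv ⟨t, hw.reachable.trans ht, ht'⟩
  have hAF : ∀ v ∈ A, v ∉ F ∪ E := fun v hv h => hv ⟨v, .refl _, fun u hu => good_of_mem hu h⟩
  have : StandardBorelSpace A := hA.standardBorel
  have hac : (G.induce A).IsAcyclic := by
    intro t p hp
    exact t.2 ⟨t, .refl _, fun u hu => (tgt_of_cycle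
      (p.map (SimpleGraph.Embedding.induce A).toHom) (hp.map Subtype.val_injective) u hu).mono
      (empty_subset _)⟩
  have hG' : MeasurableSet {p : A × A | (G.induce A).Adj p.1 p.2} :=
    measurableSet_setOfPred.2 (C.meas_adj (f := fun p : A × A => (p.1 : V))
      (g := fun p : A × A => (p.2 : V)) (by fun_prop) (by fun_prop))
  have h3' : Three (G.induce A) := by
    intro v
    obtain ⟨a, b, c, hab, hac, hbc, ha, hb, hc⟩ := h3 v
    exact ⟨⟨a, hcl v a v.2 ha⟩, ⟨b, hcl v b v.2 hb⟩, ⟨c, hcl v c v.2 hc⟩,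
      fun h => hab (congrArg Subtype.val h), fun h => hac (congrArg Subtype.val h),
      fun h => hbc (congrArg Subtype.val h), ha, hb, hc⟩
  have hf' : ∀ v : A, {w | (G.induce A).Adj v w}.Finite := fun v =>
    ((hf v).preimage Subtype.val_injective.injOn).subset fun w hw => hw
  have hc' : Cov (G.induce A) := by
    refine ⟨fun i x => ⟨C.nb i x, hcl x _ x.2 (C.adj_nb i x)⟩, fun i => ?_, fun u v h => ?_⟩
    · exact ((C.meas_nb i).comp measurable_subtype_coe).subtype_mk
    · obtain ⟨i, hi⟩ := (C.adj_iff u v).1 h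
      exact ⟨i, Subtype.ext hi⟩
  obtain ⟨C'⟩ := nonempty_cub (G.induce A) hG' hc' hf' h3'
  obtain ⟨d, hd, hd'⟩ := C'.exists_core hac
  let e : V → Bool := Function.extend Subtype.val d c
  have he : Measurable e := (MeasurableEmbedding.subtype_coe hA).measurable_extend hd hc
  have hcd : ∀ x : A, e x = d x := fun x => Subtype.val_injective.extend_apply d _ x
  have hce : ∀ x ∈ F, e x = c x := fun x hx =>
    Function.extend_apply' d c x fun ⟨y, hy⟩ => hAF x (hy ▸ y.2) (Or.inl hx)
  refine (C.exists_hap_of_tgt hE hβ he (F := F ∪ A ∩ Core G e)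
    (hFm.or ((measurableSet_setOfPred.1 hA).and (C.meas_core he))) ?_ ?_ fun v => ?_).imp
    fun r ⟨hr, h1, h2⟩ => ⟨hr, fun v hv => (h1 v (Or.inl hv)).trans (hce v hv), h2⟩
  · rintro v (hv | hv)
    · obtain ⟨a, b, hab, ha, hb, haF, hbF⟩ := hF v hv
      refine ⟨a, b, hab, ⟨ha.1, ?_⟩, ⟨hb.1, ?_⟩, Or.inl haF, Or.inl hbF⟩
      · rw [hce v hv, hce a haF]; exact ha.2
      · rw [hce v hv, hce b hbF]; exact hb.2
    · obtain ⟨a, b, hab, ha, hb, haF, hbF⟩ := leafless_core e v hv.2
      exact ⟨a, b, hab, ha, hb, Or.inr ⟨hcl v a hv.1 ha.1, haF⟩, Or.inr ⟨hcl v b hv.1 hb.1, hbF⟩⟩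
  · rintro v (hv | hv)
    · exact hFE v hv
    · exact fun h => hAF v hv.1 (Or.inr h)
  · by_cases hv : v ∈ A
    · obtain ⟨t, ht, F', hF', htF⟩ := hd' ⟨v, hv⟩
      refine ⟨t, ht.map (SimpleGraph.Embedding.induce A).toHom, fun u hu =>
        good_of_mem hu (Or.inl (Or.inr ⟨t.2, ?_⟩))⟩
      refine ⟨Subtype.val '' F', ?_, t, htF, rfl⟩
      rintro _ ⟨x, hx, rfl⟩
      obtain ⟨a, b, hab, ha, hb, haF, hbF⟩ := hF' x hx
      refine ⟨a, b, fun h => hab (Subtype.ext h), ⟨ha.1, ?_⟩, ⟨hb.1, ?_⟩, ⟨a, haF, rfl⟩,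
        ⟨b, hbF, rfl⟩⟩
      · rw [hcd, hcd]; exact ha.2
      · rw [hcd, hcd]; exact hb.2
    · obtain ⟨t, ht, ht'⟩ := not_not.1 hv
      exact ⟨t, ht, fun u hu => (ht' u hu).mono
        (union_subset_union_left _ subset_union_left)⟩

end Pool.Agent.P.MP_bd6b97_lc.G4
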