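import Pool.Agent.P.MP_bd6b97_lc.Th.Dyn

set_option autoImplicit false

namespace Pool.Agent.P.MP_bd6b97_lc.G4

open Set Function MeasureTheory

variable {V : Type}

/-- the graph with a gadget of type `τ v` attached to the vertex `v` -/
def extT (G : SimpleGraph V) (τ : V → Fin 4) : SimpleGraph (V × Fin 7) where
  Adj p q := (p.2 = 0 ∧ q.2 = 0 ∧ G.Adj p.1 q.1) ∨ (p.1 = q.1 ∧ gam (τ p.1) p.2 q.2 = true)
  symm := ⟨by
    rintro p q (⟨h1, h2, h3⟩ | ⟨h1, h2⟩)
    · exact Or.inl ⟨h2, h1, h3.symm⟩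
    · exact Or.inr ⟨h1.symm, by rw [← h1, gam_symm]; exact h2⟩⟩
  loopless := ⟨by
    rintro p (⟨-, -, h⟩ | ⟨-, h⟩)
    · exact G.irrefl h
    · simp [gam_irrefl] at h⟩

/-- the colours of the gadget -/
def gcol (b : Bool) (i : Fin 7) : Bool := if 1 ≤ i ∧ i ≤ 3 then !b else b

lemma gcol_two : ∀ (t : Fin 4) (b : Bool) (i : Fin 7), (i ≠ 0 ∨ t = 0) → ∃ j k : Fin 7,
    j ≠ k ∧ j ≠ 0 ∧ k ≠ 0 ∧ gam t i j = true ∧ gam t i k = true ∧ gcol b i ≠ gcol b j ∧
      gcol b i ≠ gcol b k := by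
  decide +kernel

lemma gcol_zero : ∀ (b : Bool) (j : Fin 7), gam 0 0 j = true → j ≠ 0 ∧ gcol b j ≠ b := by
  decide +kernel

variable {G : SimpleGraph V} {τ : V → Fin 4}

lemma extT_finite (hf : ∀ v, {w | G.Adj v w}.Finite) (p : V × Fin 7) :
    {q | (extT G τ).Adj p q}.Finite := by
  refine (((hf p.1).insert p.1).prod (finite_univ (α := Fin 7))).subset ?_
  rintro q (⟨-, -, h⟩ | ⟨h, -⟩)
  · exact ⟨Or.inr h, mem_univ _⟩
  · exact ⟨Or.inl h.symm, mem_univ _⟩

lemma extT_three (hf : ∀ v, {w | G.Adj v w}.Finite)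
    (h3 : ∀ v, τ v ≠ 0 → 3 ≤ {w | G.Adj v w}.ncard) : Three (extT G τ) := by
  rintro ⟨v, i⟩
  by_cases h : i ≠ 0 ∨ τ v = 0
  · obtain ⟨a, b, c, hab, hac, hbc, ha, hb, hc⟩ := gam_three _ _ h
    exact ⟨(v, a), (v, b), (v, c), by simpa using hab, by simpa using hac, by simpa using hbc,
      Or.inr ⟨rfl, ha⟩, Or.inr ⟨rfl, hb⟩, Or.inr ⟨rfl, hc⟩⟩
  push Not at h
  obtain ⟨rfl, h0⟩ := h
  obtain ⟨a, ha, b, hb, c, hc, hab, hac, hbc⟩ := (two_lt_ncard (hf v)).1 (h3 v h0)
  exact ⟨(a, 0), (b, 0), (c, 0), by simpa using hab, by simpa using hac, by simpa using hbc,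
    Or.inl ⟨rfl, rfl, ha⟩, Or.inl ⟨rfl, rfl, hb⟩, Or.inl ⟨rfl, rfl, hc⟩⟩

variable [MeasurableSpace V] [StandardBorelSpace V]

lemma meas_extT (hG : MeasurableSet {p : V × V | G.Adj p.1 p.2}) (ht : Measurable τ) :
    MeasurableSet {p : (V × Fin 7) × (V × Fin 7) | (extT G τ).Adj p.1 p.2} := by
  have hadj : Measurable fun p : V × V => G.Adj p.1 p.2 := measurableSet_setOfPred.1 hG
  have hio : Measurable (embeddingReal V) := measurable_embeddingReal V
  have hinj := (measurableEmbedding_embeddingReal V).injective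
  refine measurableSet_setOfPred.2 (Measurable.or ?_ (Measurable.and ?_ ?_))
  · refine Measurable.and (Measurable.eq (by fun_prop) measurable_const)
      (Measurable.and (Measurable.eq (by fun_prop) measurable_const) ?_)
    exact hadj.comp (f := fun p : (V × Fin 7) × (V × Fin 7) => (p.1.1, p.2.1)) (by fun_prop)
  · simp_rw [← hinj.eq_iff]
    exact Measurable.eq (by fun_prop) (by fun_prop)
  · have h1 : Measurable fun q : Fin 4 × Fin 7 × Fin 7 => gam q.1 q.2.1 q.2.2 = true :=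
      measurable_of_countable _
    exact h1.comp (f := fun p : (V × Fin 7) × (V × Fin 7) => (τ p.1.1, p.1.2, p.2.2))
      (by fun_prop)

/-- frozen points, end points and ordinary points of degree at least three -/
theorem exists_rule (hG : MeasurableSet {p : V × V | G.Adj p.1 p.2})
    (hf : ∀ v, {w | G.Adj v w}.Finite) {P Z : V → Prop} {β : V → Bool} (hP : Measurable P)
    (hZ : Measurable Z) (hβ : Measurable β) (hZP : ∀ v, Z v → P v)
    (h3 : ∀ v, ¬ P v → 3 ≤ {w | G.Adj v w}.ncard) :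
    ∃ c : V → Bool, Measurable c ∧ ∀ v, (Z v → c v = β v) ∧
      (P v → ¬ Z v → (c v = β v ↔ ∀ w, G.Adj v w → c w ≠ β v)) ∧ (¬ P v → Happy G c v) := by
  classical
  let τ : V → Fin 4 := fun v => if P v then 0 else 3
  have ht : Measurable τ :=
    Measurable.ite (measurableSet_setOfPred.2 hP) measurable_const measurable_const
  have hG' := meas_extT hG ht
  have hg : Measurable fun p : V × Fin 7 => gcol (β p.1) p.2 :=
    (measurable_of_countable fun q : Bool × Fin 7 => gcol q.1 q.2).comp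
      (f := fun p : V × Fin 7 => (β p.1, p.2)) (by fun_prop)
  have h0 : Measurable fun p : V × Fin 7 => p.2 = 0 := Measurable.eq measurable_snd measurable_const
  obtain ⟨d, hd, h1, h2⟩ := exists_hap (G := extT G τ)
    (E := {p | p.2 = 0 ∧ P p.1 ∧ ¬ Z p.1}) (β := fun p => β p.1) hG'
    (cov_of_finite hG' (extT_finite hf)) (extT_finite hf)
    (extT_three hf fun v hv => h3 v fun h => hv (if_pos h))
    (h0.and ((hP.comp measurable_fst).and (hZ.comp measurable_fst).not)) (hβ.comp measurable_fst)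
    hg (F := {p | p.2 ≠ 0 ∨ Z p.1}) (h0.not.or (hZ.comp measurable_fst))
    (by
      rintro ⟨v, i⟩ hv
      obtain ⟨j, k, hjk, hj, hk, e1, e2, e3, e4⟩ := gcol_two (τ v) (β v) i
        (hv.imp id fun h => if_pos (hZP v h))
      exact ⟨(v, j), (v, k), by simpa using hjk, ⟨Or.inr ⟨rfl, e1⟩, e3⟩, ⟨Or.inr ⟨rfl, e2⟩, e4⟩,
        Or.inl hj, Or.inl hk⟩)
    (fun p hp h => hp.elim (fun e => e h.1) h.2.2)
  refine ⟨fun w => d (w, 0), hd.comp (by fun_prop), fun v => ⟨fun h => h1 (v, 0) (Or.inr h),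
    fun hp hz => ?_, fun hp => ?_⟩⟩
  · rcases h2 (v, 0) with ⟨-, h⟩ | ⟨h, -⟩
    · refine h.trans ⟨fun h w hw => h (w, 0) (Or.inl ⟨rfl, rfl, hw⟩), ?_⟩
      rintro h ⟨w, j⟩ (⟨-, e, hw⟩ | ⟨e, hw⟩)
      · obtain rfl : j = 0 := e
        exact h w hw
      · obtain rfl : v = w := e
        have hw' : gam 0 0 j = true := by simpa only [τ, if_pos hp] using hw
        rw [h1 (v, j) (Or.inl (gcol_zero (β v) j hw').1)]
        exact (gcol_zero (β v) j hw').2
    · exact absurd ⟨rfl, hp, hz⟩ h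
  · rcases h2 (v, 0) with ⟨h, -⟩ | ⟨-, a, b, hab, ha, hb⟩
    · exact absurd h.2.1 hp
    · have key : ∀ q, Bi (extT G τ) d (v, 0) q → q.2 = 0 ∧ Bi G (fun w => d (w, 0)) v q.1 := by
        rintro ⟨w, j⟩ ⟨⟨-, e, hw⟩ | ⟨-, hw⟩, h⟩
        · obtain rfl : j = 0 := e
          exact ⟨rfl, hw, h⟩
        · simp [τ, hp, gam_t3] at hw
      exact ⟨a.1, b.1, fun e => hab (Prod.ext e ((key a ha).1.trans (key b hb).1.symm)),
        (key a ha).2, (key b hb).2⟩

theorem need_main (G : SimpleGraph V) (hG : MeasurableSet {p : V × V | G.Adj p.1 p.2})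
    (hf : ∀ v, {w | G.Adj v w}.Finite) (a : Bool → V → ℕ) (ha : ∀ i, Measurable (a i))
    (h1 : ∀ v, a true v + a false v ≤ {w | G.Adj v w}.ncard + 1)
    (h2 : ∀ v, a true v ≤ 1 ∨ a false v ≤ 1 ∨ a true v + a false v ≤ 4) :
    ∃ c : V → Bool, Measurable c ∧ ∀ v : V,
      a (c v) v ≤ {w : V | G.Adj v w ∧ c w ≠ c v}.ncard := by
  classical
  let g : ℕ × ℕ → Bool := fun q => if q.1 = 0 then true else if q.2 = 0 then false
    else if q.1 = 1 then false else true
  have hm : Measurable fun v => (a true v, a false v) := (ha true).prodMk (ha false)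
  obtain ⟨c, hc, h⟩ := exists_rule hG hf (P := fun v => a true v ≤ 1 ∨ a false v ≤ 1)
    (Z := fun v => a true v = 0 ∨ a false v = 0) (β := fun v => g (a true v, a false v))
    ((measurable_of_countable fun q : ℕ × ℕ => q.1 ≤ 1 ∨ q.2 ≤ 1).comp hm)
    ((measurable_of_countable fun q : ℕ × ℕ => q.1 = 0 ∨ q.2 = 0).comp hm)
    ((measurable_of_countable g).comp hm) (fun v h => by omega)
    (fun v h => by have := h1 v; omega)
  refine ⟨c, hc, fun v => ?_⟩
  obtain ⟨k1, k2, k3⟩ := h v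
  have f2 : {w : V | G.Adj v w ∧ c w ≠ c v}.Finite := (hf v).subset fun w hw => hw.1
  have e1 := h1 v
  by_cases hz : a true v = 0 ∨ a false v = 0
  · rw [k1 hz]
    by_cases e : a true v = 0
    · simp [g, e]
    · simp [g, e, hz.resolve_left e]
  by_cases hp : a true v ≤ 1 ∨ a false v ≤ 1
  · have k := k2 hp hz
    have hb : ∀ b : Bool, b ≠ g (a true v, a false v) → a b v = 1 := by
      intro b
      simp only [g]
      split_ifs <;> cases b <;> simp <;> omega
    by_cases e : c v = g (a true v, a false v)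
    · have e2 : {w : V | G.Adj v w ∧ c w ≠ c v} = {w | G.Adj v w} :=
        Set.ext fun w => and_iff_left_of_imp fun hw => e ▸ k.1 e w hw
      have e3 := hb (!c v) (by rw [← e]; simp)
      rw [e2]
      revert e3
      cases c v <;> simp <;> omega
    · obtain ⟨w, hw1, hw2⟩ : ∃ w, G.Adj v w ∧ c w = g (a true v, a false v) := by
        by_contra hcon
        exact e (k.2 fun w h1 h2 => hcon ⟨w, h1, h2⟩)
      rw [hb _ e]
      exact (Set.ncard_pos f2).2 ⟨w, hw1, fun h => e (h.symm.trans hw2)⟩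
  · obtain ⟨x, y, hxy, hx, hy⟩ := k3 hp
    have := (Set.one_lt_ncard f2).2 ⟨x, ⟨hx.1, hx.2.symm⟩, y, ⟨hy.1, hy.2.symm⟩, hxy⟩
    have e2 := h2 v
    refine le_trans ?_ this
    cases c v <;> omega

end Pool.Agent.P.MP_bd6b97_lc.G4
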